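import Mathlib
import Pool.Agent.X269.Skew

set_option autoImplicit false

/-!
MP_f6bc98_an, Q1 and Q2: a finitely generated solvable subgroup of the group of interval exchanges
with flips which is not realizable.
-/

namespace Pool.Agent.Results.MP_f6bc98_an.SolvableNotRealizable

open Equiv Topology

/-- the circle `ℝ/ℤ` -/
abbrev S : Type := AddCircle (1 : ℝ)

/-- the group of all bijections of the circle which, together with their inverses, are continuous
at all but finitely many points -/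
def PChat : Subgroup (Perm S) where
  carrier := {f | {x | ¬ ContinuousAt f x}.Finite ∧ {x | ¬ ContinuousAt (f⁻¹ : Perm S) x}.Finite}
  mul_mem' := by
    have key : ∀ f g : Perm S, {x | ¬ ContinuousAt f x}.Finite → {x | ¬ ContinuousAt g x}.Finite →
        {x | ¬ ContinuousAt (f * g : Perm S) x}.Finite := by
      intro f g hf hg
      refine (hg.union (hf.preimage g.injective.injOn)).subset ?_
      intro x hx
      by_contra hcon
      simp only [Set.mem_union, Set.mem_preimage, Set.mem_ofPred_eq, not_or, not_not] at hcon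
      exact hx (hcon.2.comp hcon.1)
    rintro f g ⟨hf, hf'⟩ ⟨hg, hg'⟩
    refine ⟨key f g hf hg, ?_⟩
    rw [mul_inv_rev]
    exact key _ _ hg' hf'
  one_mem' := by
    have h : {x : S | ¬ ContinuousAt (1 : Perm S) x} = ∅ := by
      ext x
      simp only [Set.mem_ofPred_eq, Set.mem_empty_iff_false, iff_false, not_not]
      exact continuousAt_id
    refine ⟨?_, ?_⟩
    · rw [h]; exact Set.finite_empty
    · rw [inv_one, h]; exact Set.finite_empty
  inv_mem' := by
    rintro f ⟨h1, h2⟩
    exact ⟨h2, by simpa using h1⟩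

/-- the finitely supported permutations -/
def Sfin : Subgroup PChat where
  carrier := {f | {x | (f : Perm S) x ≠ x}.Finite}
  mul_mem' := by
    intro f g hf hg
    refine (hf.union hg).subset ?_
    intro x hx
    by_contra hcon
    simp only [Set.mem_union, Set.mem_ofPred_eq, not_or, not_not] at hcon
    apply hx
    show (f : Perm S) ((g : Perm S) x) = x
    rw [hcon.2, hcon.1]
  one_mem' := by
    have h : {x : S | ((1 : PChat) : Perm S) x ≠ x} = ∅ := by
      ext x
      simp
    show Set.Finite _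
    rw [h]; exact Set.finite_empty
  inv_mem' := by
    intro f hf
    refine Set.Finite.subset hf ?_
    intro x hx h
    apply hx
    show (f : Perm S)⁻¹ x = x
    rw [Perm.inv_eq_iff_eq]
    exact h.symm

instance : Sfin.Normal := ⟨by
  intro n hn g
  refine (Set.Finite.image (g : Perm S) hn).subset ?_
  intro x hx
  refine ⟨(g : Perm S)⁻¹ x, ?_, (g : Perm S).apply_symm_apply x⟩
  intro h
  apply hx
  show (g : Perm S) ((n : Perm S) ((g : Perm S)⁻¹ x)) = x
  rw [h]
  exact (g : Perm S).apply_symm_apply x⟩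

/-- the group of piecewise continuous bijections of the circle modulo finitely supported
permutations -/
abbrev PCbt : Type := PChat ⧸ Sfin

/-- the quotient map -/
abbrev π : PChat →* PCbt := QuotientGroup.mk' Sfin

/-- off a finite set the map is locally of the form `x ↦ x + c` or `x ↦ -x + c` -/
def PiecewiseIsometric (f : S → S) : Prop :=
  ∃ E : Set S, E.Finite ∧ ∀ x ∉ E, ∃ c : S,
    (∀ᶠ y in 𝓝 x, f y = y + c) ∨ (∀ᶠ y in 𝓝 x, f y = -y + c)

/-- the class contains a piecewise isometric representative: it is an interval exchange with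
flips -/
def IsIETWithFlips (γ : PCbt) : Prop := ∃ f : PChat, π f = γ ∧ PiecewiseIsometric (f : Perm S)

/-- some subgroup of `PChat` is mapped bijectively onto `Γ` -/
def Realizable (Γ : Subgroup PCbt) : Prop := ∃ Λ : Subgroup PChat, Set.BijOn π Λ Γ

open Pool.Agent.X269.Circle Pool.Agent.X269.Skew Pool.Agent.X269.NearRigid

theorem mem_of_PI2 (f : Perm S) (h : PI2 f) : f ∈ PChat := ⟨h.1.continuous, h.2.continuous⟩

/-- first rotation of the two circles -/
noncomputable def ga : PChat := ⟨tr (τ ((√2 : ℝ) : S)), mem_of_PI2 _ (PI2_τ _)⟩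

/-- second rotation of the two circles -/
noncomputable def gb : PChat := ⟨tr (τ ((√3 : ℝ) : S)), mem_of_PI2 _ (PI2_τ _)⟩

/-- reflection of the two circles -/
noncomputable def gs : PChat := ⟨tr ν, mem_of_PI2 _ PI2_ν⟩

/-- exchange of the two circles over one half -/
noncomputable def gj : PChat := ⟨tr κ, mem_of_PI2 _ PI2_κ⟩

/-- exchange of the two circles -/
noncomputable def gz : PChat := ⟨tr ζ, mem_of_PI2 _ PI2_ζ⟩

/-- the group of representatives -/
noncomputable def Γh : Subgroup PChat := Subgroup.closure {ga, gb, gs, gj}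

/-- the group -/
noncomputable def Γ : Subgroup PCbt := Γh.map π

theorem ga_mem : ga ∈ Γh := Subgroup.subset_closure (by simp)
theorem gb_mem : gb ∈ Γh := Subgroup.subset_closure (by simp)
theorem gs_mem : gs ∈ Γh := Subgroup.subset_closure (by simp)
theorem gj_mem : gj ∈ Γh := Subgroup.subset_closure (by simp)

theorem Γ_fg : Γ.FG := by
  unfold Γ Γh
  rw [MonoidHom.map_closure]
  rw [Subgroup.fg_iff]
  exact ⟨_, rfl, (Set.toFinite _).image _⟩

theorem PI2_of_mem (f : PChat) (hf : f ∈ Γh) : PI2 (f : Perm S) := by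
  induction hf using Subgroup.closure_induction with
  | mem x hx =>
    simp only [Set.mem_insert_iff, Set.mem_singleton_iff] at hx
    rcases hx with rfl | rfl | rfl | rfl
    · exact PI2_τ _
    · exact PI2_τ _
    · exact PI2_ν
    · exact PI2_κ
  | one => exact ⟨PI.id, PI.id⟩
  | mul x y _ _ hx hy =>
    refine ⟨hx.1.comp hy.1 (y : Perm S).injective, ?_⟩
    have : ((x * y : PChat) : Perm S)⁻¹ = (y : Perm S)⁻¹ * (x : Perm S)⁻¹ := by
      rw [Subgroup.coe_mul, mul_inv_rev]
    rw [this]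
    exact hy.2.comp hx.2 (x : Perm S)⁻¹.injective
  | inv x _ hx =>
    refine ⟨hx.2, ?_⟩
    have : ((x⁻¹ : PChat) : Perm S)⁻¹ = x := by
      rw [Subgroup.coe_inv, inv_inv]
    rw [this]
    exact hx.1

theorem Γ_iet : ∀ γ ∈ Γ, IsIETWithFlips γ := by
  rintro _ ⟨f, hf, rfl⟩
  exact ⟨f, rfl, (PI2_of_mem f hf).1⟩

theorem Γh_skew (f : PChat) (hf : f ∈ Γh) : tr.symm (f : Perm S) ∈ W0 := by
  induction hf using Subgroup.closure_induction with
  | mem x hx =>
    simp only [Set.mem_insert_iff, Set.mem_singleton_iff] at hx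
    rcases hx with rfl | rfl | rfl | rfl
    · exact ⟨_, _, _, by simpa [ga] using sk_τ _⟩
    · exact ⟨_, _, _, by simpa [gb] using sk_τ _⟩
    · exact ⟨_, _, _, by simpa [gs] using sk_ν⟩
    · exact ⟨_, _, _, by simpa [gj] using sk_κ⟩
  | one => simp [W0.one_mem]
  | mul x y _ _ hx hy =>
    rw [Subgroup.coe_mul, map_mul]
    exact W0.mul_mem hx hy
  | inv x _ hx =>
    rw [Subgroup.coe_inv, map_inv]
    exact W0.inv_mem hx

theorem Γ_solvable : Group.IsSolvable Γ := by
  have h0 := W0_solvable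
  let f : Γh →* W0 :=
    { toFun := fun x => ⟨tr.symm (x : PChat), Γh_skew x x.2⟩
      map_one' := by
        apply Subtype.ext
        simp
      map_mul' := by
        intro x y
        apply Subtype.ext
        simp }
  have hf : Function.Injective f := by
    intro x y hxy
    have h1 := congrArg Subtype.val hxy
    have h2 := tr.symm.injective h1
    exact Subtype.ext (Subtype.ext h2)
  have h1 : Group.IsSolvable Γh := Group.isSolvable_of_isSolvable_injective hf
  exact Group.isSolvable_of_surjective (π.subgroupMap_surjective Γh)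

theorem near_of_eq (P Q : PChat) (h : π P = π Q) :
    {x | (P : Perm S) x ≠ (Q : Perm S) x}.Finite := by
  have h1 : P⁻¹ * Q ∈ Sfin := QuotientGroup.eq.1 h
  refine Set.Finite.subset h1 ?_
  intro x hx h2
  apply hx
  have h3 : (P : Perm S)⁻¹ ((Q : Perm S) x) = x := h2
  rw [Perm.inv_eq_iff_eq] at h3
  exact h3.symm

theorem eq_of_near (P Q : PChat) (h : {x | (P : Perm S) x ≠ (Q : Perm S) x}.Finite) :
    π P = π Q := by
  apply QuotientGroup.eq.2
  refine Set.Finite.subset h ?_
  intro x hx h2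
  apply hx
  show (P : Perm S)⁻¹ ((Q : Perm S) x) = x
  rw [Perm.inv_eq_iff_eq, h2]

theorem ac_tr (a b : Perm X) (p : ℤ × ℤ) : ac (tr a) (tr b) p = tr (ac a b p) := by
  unfold ac
  rw [map_mul, map_zpow, map_zpow]

theorem rel_z : π (gs⁻¹ * gj * gs * gj⁻¹) = π gz := by
  apply eq_of_near
  refine (rel_fin.image e.symm).subset ?_
  intro x hx
  refine ⟨e x, ?_, by simp⟩
  intro h
  apply hx
  have h1 : ((gs⁻¹ * gj * gs * gj⁻¹ : PChat) : Perm S) = tr (ν⁻¹ * κ * ν * κ⁻¹) := by
    simp [gs, gj]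
  rw [h1, tr_apply, h]
  rfl

theorem semi (C A B A' B' : Perm S) (hA : C * A = A' * C) (hB : C * B = B' * C) (q : ℤ × ℤ) :
    C * ac A B q = ac A' B' q * C := by
  have h1 : SemiconjBy C A A' := hA
  have h2 : SemiconjBy C B B' := hB
  exact (h1.zpow_right q.1).mul_right (h2.zpow_right q.2)

theorem ac_inv (A B : Perm S) (q : ℤ × ℤ) : ac A⁻¹ B⁻¹ q = ac A B (-q) := by
  unfold ac
  simp

theorem not_realizable : ¬ Realizable Γ := by
  rintro ⟨Λ, hΛ⟩
  have inj : ∀ P ∈ Λ, ∀ Q ∈ Λ, π P = π Q → P = Q := fun P hP Q hQ h => hΛ.injOn hP hQ h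
  obtain ⟨A, hA, hπA⟩ := hΛ.surjOn (⟨ga, ga_mem, rfl⟩ : π ga ∈ Γ)
  obtain ⟨B, hB, hπB⟩ := hΛ.surjOn (⟨gb, gb_mem, rfl⟩ : π gb ∈ Γ)
  obtain ⟨T, hT, hπT⟩ := hΛ.surjOn (⟨gs, gs_mem, rfl⟩ : π gs ∈ Γ)
  obtain ⟨J, hJ, hπJ⟩ := hΛ.surjOn (⟨gj, gj_mem, rfl⟩ : π gj ∈ Γ)
  -- relations among the exact permutations
  have rab : ga * gb = gb * ga := by
    apply Subtype.ext
    show tr _ * tr _ = tr _ * tr _
    rw [← map_mul, ← map_mul, ττ]
  have rsa : gs * ga = ga⁻¹ * gs := by
    apply Subtype.ext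
    show tr _ * tr _ = (tr _)⁻¹ * tr _
    rw [← map_inv, ← map_mul, ← map_mul, ντ]
  have rsb : gs * gb = gb⁻¹ * gs := by
    apply Subtype.ext
    show tr _ * tr _ = (tr _)⁻¹ * tr _
    rw [← map_inv, ← map_mul, ← map_mul, ντ]
  have rza : gz * ga = ga * gz := by
    apply Subtype.ext
    show tr _ * tr _ = tr _ * tr _
    rw [← map_mul, ← map_mul, ζτ]
  have rzb : gz * gb = gb * gz := by
    apply Subtype.ext
    show tr _ * tr _ = tr _ * tr _
    rw [← map_mul, ← map_mul, ζτ]
  -- the same relations among the lifts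
  have RAB : A * B = B * A := inj _ (Λ.mul_mem hA hB) _ (Λ.mul_mem hB hA) (by
    rw [map_mul, map_mul, hπA, hπB, ← map_mul, ← map_mul, rab])
  have RTA : T * A = A⁻¹ * T := inj _ (Λ.mul_mem hT hA) _ (Λ.mul_mem (Λ.inv_mem hA) hT) (by
    rw [map_mul, map_mul, map_inv, hπA, hπT, ← map_inv, ← map_mul, ← map_mul, rsa])
  have RTB : T * B = B⁻¹ * T := inj _ (Λ.mul_mem hT hB) _ (Λ.mul_mem (Λ.inv_mem hB) hT) (by
    rw [map_mul, map_mul, map_inv, hπB, hπT, ← map_inv, ← map_mul, ← map_mul, rsb])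
  obtain ⟨Z, hZ⟩ : ∃ Z, Z = T⁻¹ * J * T * J⁻¹ := ⟨_, rfl⟩
  have hZΛ : Z ∈ Λ := by
    rw [hZ]
    exact Λ.mul_mem (Λ.mul_mem (Λ.mul_mem (Λ.inv_mem hT) hJ) hT) (Λ.inv_mem hJ)
  have hπZ : π Z = π gz := by
    rw [← rel_z, hZ]
    simp only [map_mul, map_inv, hπT, hπJ]
  have RZA : Z * A = A * Z := inj _ (Λ.mul_mem hZΛ hA) _ (Λ.mul_mem hA hZΛ) (by
    rw [map_mul, map_mul, hπA, hπZ, ← map_mul, ← map_mul, rza])
  have RZB : Z * B = B * Z := inj _ (Λ.mul_mem hZΛ hB) _ (Λ.mul_mem hB hZΛ) (by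
    rw [map_mul, map_mul, hπB, hπZ, ← map_mul, ← map_mul, rzb])
  have free : ∀ (p : ℤ × ℤ) (x : S), ac (ga : Perm S) (gb : Perm S) p x = x → p = 0 := by
    intro p x h
    have h1 : ac (ga : Perm S) (gb : Perm S) p = tr (ac (τ _) (τ _) p) := ac_tr _ _ p
    rw [h1, tr_apply, ac_τ, Equiv.symm_apply_eq] at h
    have h2 := congrArg Prod.fst h
    simp only [add_eq_left] at h2
    exact indep p h2
  have cab : Commute (ga : Perm S) (gb : Perm S) := congrArg Subtype.val rab
  have cAB : Commute (A : Perm S) (B : Perm S) := congrArg Subtype.val RAB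
  obtain ⟨g, hgbij, hg⟩ := rigid (ga : Perm S) gb A B cab cAB (near_of_eq A ga hπA)
    (near_of_eq B gb hπB) free
  have hTg : ∀ y, (T : Perm S) (g y) = g ((gs : Perm S) y) := by
    intro y
    refine carry (ga : Perm S) gb A B cab g hg free T gs (near_of_eq T gs hπT)
      (Equiv.neg (ℤ × ℤ)) ?_ ?_ y
    · intro q
      rw [semi (T : Perm S) A B (A : Perm S)⁻¹ (B : Perm S)⁻¹ (congrArg Subtype.val RTA)
        (congrArg Subtype.val RTB), ac_inv]
      rfl
    · intro q
      rw [semi (gs : Perm S) ga gb (ga : Perm S)⁻¹ (gb : Perm S)⁻¹ (congrArg Subtype.val rsa)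
        (congrArg Subtype.val rsb), ac_inv]
      rfl
  have hZg : ∀ y, (Z : Perm S) (g y) = g ((gz : Perm S) y) := by
    intro y
    refine carry (ga : Perm S) gb A B cab g hg free Z gz (near_of_eq Z gz hπZ)
      (Equiv.refl _) ?_ ?_ y
    · intro q
      exact semi (Z : Perm S) A B A B (congrArg Subtype.val RZA) (congrArg Subtype.val RZB) q
    · intro q
      exact semi (gz : Perm S) ga gb ga gb (congrArg Subtype.val rza) (congrArg Subtype.val rzb) q
  have hTZ : T * Z = J * T * J⁻¹ := by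
    rw [hZ]
    group
  -- a fixed point of the reflection
  obtain ⟨x₀, hx₀⟩ : ∃ x₀ : S, (gs : Perm S) x₀ = x₀ := by
    refine ⟨e.symm (0, 0), ?_⟩
    show tr ν _ = _
    rw [tr_apply, Equiv.apply_symm_apply]
    congr 1
    show ((-0 : S), (0 : ZMod 2)) = (0, 0)
    rw [neg_zero]
  obtain ⟨w, hw⟩ := hgbij.2 ((J : Perm S) (g x₀))
  have h1 : ((T * Z : PChat) : Perm S) (g w) = g w := by
    rw [hTZ, hw]
    show (J : Perm S) ((T : Perm S) ((J : Perm S)⁻¹ ((J : Perm S) (g x₀)))) = _
    have h2 : (J : Perm S)⁻¹ ((J : Perm S) (g x₀)) = g x₀ := (J : Perm S).symm_apply_apply _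
    rw [h2, hTg, hx₀]
  have h2 : ((T * Z : PChat) : Perm S) (g w) = g ((gs : Perm S) ((gz : Perm S) w)) := by
    show (T : Perm S) ((Z : Perm S) (g w)) = _
    rw [hZg, hTg]
  have h3 : (gs : Perm S) ((gz : Perm S) w) = w := hgbij.1 (h2.symm.trans h1)
  have h4 : (ν * ζ) (e w) = e w := by
    have h5 : tr (ν * ζ) w = w := by
      rw [map_mul]
      exact h3
    rw [tr_apply, Equiv.symm_apply_eq] at h5
    exact h5
  exact νζ_free _ h4

/-- There is a finitely generated solvable subgroup of the group of piecewise continuous bijections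
of the circle modulo finitely supported permutations, contained in the group of interval exchanges
with flips, which is not realizable. -/
theorem result : ∃ Γ : Subgroup PCbt, Γ.FG ∧ Group.IsSolvable Γ ∧ (∀ γ ∈ Γ, IsIETWithFlips γ) ∧
    ¬ Realizable Γ :=
  ⟨Γ, Γ_fg, Γ_solvable, Γ_iet, not_realizable⟩

end Pool.Agent.Results.MP_f6bc98_an.SolvableNotRealizable
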